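import Pool.Agent.V1137.SHDCube
import Pool.Agent.V1137.PixleyRoy

open Filter Topology Set

namespace Pool.Agent.Results.MP_f85c9e_gt.PixleyRoyDescent

open Pool.Agent.V1137.SHDCube Pool.Agent.V1137.PixleyRoy

/-- The index set `ℕ × J` with `J` uncountable. -/
abbrev K : Type := ℕ × (ℕ → Bool)

theorem shd_pr_sig : SHD (PR (Sig K)) := by
  classical
  intro 𝒰 h𝒰
  choose F hF using fun n => (h𝒰 n).2
  choose V hV hFV hbox using fun n => (isOpen_iff (𝒰 n)).1 (h𝒰 n).1 (F n) (hF n)
  choose p hp using fun n => (F n).2.2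
  choose W hW hWV using fun n => isOpen_induced_iff.1 (hV n)
  have hpW : ∀ n, (p n).1 ∈ W n := by
    intro n
    have : p n ∈ Subtype.val ⁻¹' (W n) := by rw [hWV n]; exact hFV n (hp n)
    exact this
  choose G hG using fun n => exists_cyl' (W n) (hW n) (p n).1 (hpW n)
  obtain ⟨j, hj⟩ := exists_line ((⋃ n, (G n : Set K)) ∪ ⋃ n, ⋃ y ∈ (F n).1, {i | y.1 i = true})
    (Set.Countable.union (Set.countable_iUnion fun n => (G n).countable_toSet)
      (Set.countable_iUnion fun n => (F n).2.1.countable.biUnion fun y _ => y.2))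
  have hjG : ∀ n, ∀ i ∈ G n, i.2 ≠ j := fun n i hi =>
    hj i (Or.inl (Set.mem_iUnion.2 ⟨n, hi⟩))
  have hjF : ∀ n, ∀ y ∈ (F n).1, ∀ m, y.1 (m, j) = false := by
    intro n y hy m
    by_contra hcon
    refine hj (m, j) (Or.inr (Set.mem_iUnion.2 ⟨n, Set.mem_biUnion hy ?_⟩)) rfl
    simpa using hcon
  let x : ℕ → Sig K := fun n =>
    ⟨fun q => if q.2 = j then decide (q.1 ≤ n) else (p n).1 q, by
      refine ((p n).2.union (Set.countable_range fun m : ℕ => ((m, j) : K))).mono ?_
      rintro ⟨m, l⟩ hq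
      by_cases hl : l = j
      · right; exact ⟨m, by rw [hl]⟩
      · left
        simpa [hl] using hq⟩
  have hx0 : ∀ n m, (x n).1 (m, j) = decide (m ≤ n) := by intro n m; simp [x]
  have hxV : ∀ n, x n ∈ V n := by
    intro n
    rw [← hWV n]
    apply hG n
    intro i hi
    simp [x, hjG n i hi]
  refine ⟨fun n => add (F n) (x n), fun n => hbox n (add_mem_box _ _ (hFV n) _ (hxV n)), ?_⟩
  intro φ hφ H hH
  by_cases hcase : ∀ y ∈ H.1, y.1 (0, j) = false
  · have hop : IsOpen {y : Sig K | y.1 (0, j) = false} := by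
      have : {y : Sig K | y.1 (0, j) = false} = (fun y : Sig K => y.1 (0, j)) ⁻¹' {false} := rfl
      rw [this]
      exact (isOpen_discrete _).preimage ((continuous_apply _).comp continuous_subtype_val)
    obtain ⟨k, hk⟩ := (eventually_of_tendsto hH _ hop hcase).exists
    have h1 : x (φ k) ∈ {y : Sig K | y.1 (0, j) = false} := hk.2 (Set.mem_insert _ _)
    have h2 : (x (φ k)).1 (0, j) = false := h1
    rw [hx0] at h2
    simp at h2
  · push Not at hcase
    obtain ⟨y, hy, hyj⟩ := hcase
    have hev := eventually_of_tendsto hH Set.univ isOpen_univ (Set.subset_univ _)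
    obtain ⟨N, hN⟩ := eventually_atTop.1 hev
    have key : ∀ k, N ≤ k → y = x (φ k) := by
      intro k hk
      have h1 : y ∈ insert (x (φ k)) (F (φ k)).1 := (hN k hk).1 hy
      rcases h1 with h1 | h1
      · exact h1
      · exact absurd (hjF _ y h1 0) hyj
    have h1 := key N le_rfl
    have h2 := key (N + 1) (Nat.le_succ N)
    have h3 : x (φ N) = x (φ (N + 1)) := h1.symm.trans h2
    have h4 := congrArg (fun z : Sig K => z.1 (φ (N + 1), j)) h3
    simp only [hx0] at h4
    have h5 : φ N < φ (N + 1) := hφ (Nat.lt_succ_self N)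
    simp at h4
    omega

/-- A Hausdorff (even Tychonoff) space which is not selectively highly divergent but whose
Pixley-Roy hyperspace is. -/
theorem result :
    ∃ (X : Type) (_ : TopologicalSpace X),
      T1Space X ∧ T35Space X ∧ SHD (PR X) ∧ ¬ SHD X :=
  ⟨Sig K, inferInstance, inferInstance, inferInstance, shd_pr_sig, not_shd_sig K⟩

end Pool.Agent.Results.MP_f85c9e_gt.PixleyRoyDescent
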